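import Pool.Agent.Helper56.Disc.Final

namespace Pool.Agent.Results.MP_2a8a61_ag.ExponentOne

open Pool.Agent.Helper56.Disc

/-- For all `n ≥ 2` and `d ≥ 3` and every discriminant `Δ` of forms of degree `d` in `n`
variables, the smallest positive `p` such that `Δ ^ p Φ` extends to a polynomial map on all forms
of degree `d` is `1`. -/
theorem result (n d : ℕ) (hn : 2 ≤ n) (hd : 3 ≤ d) (Δ : MvPolynomial (Mon n d) ℂ)
    (hΔ : IsDiscriminant Δ) : IsLeast {p : ℕ | 0 < p ∧ PowerExtends Δ p} 1 :=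
  ⟨⟨Nat.one_pos, isLeast_one hn hd Δ hΔ⟩, fun _ hp => hp.1⟩

end Pool.Agent.Results.MP_2a8a61_ag.ExponentOne
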